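import Pool.Agent.helper78.NT.Defs

/-!
# A digital net in base `2`

Sketch. For `v : Fin n → Bool` (or `ZMod 2`) let `P v = ∑ c, v c Y ^ c` in `(ZMod 2)[X]`.  The
first (most significant) digits of `X v 0` are the coefficients `0, 1, 2, ...` of `P v`, those of
`X v 1` are the coefficients `n - 1, n - 2, ...`, those of `X v 2` are the coefficients
`0, 1, 2, ...` of `Polynomial.taylor 1 (P v)`.  If `d 0 + d 1 + d 2 = n` and the first `d i` digits
of `X v i` are `0` for all `i`, then `X ^ d 0` and `(X - 1) ^ d 2` divide `P v`, which has degree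
less than `n - d 1 = d 0 + d 2`, so that `v = 0`: the linear map from `v` to these `n` digits is
injective, hence surjective, and some `v` has the digits of the positions of the box `b`
(`Cv n b x` says that the first `b.1 i` binary digits of `x i` are those of `b.2 i`).
-/

set_option autoImplicit false
open scoped Classical
open Finset Pool.Agent.helper17.Dya Pool.Agent.helper17.DyS

namespace Pool.Agent.helper78.NT

/-- the number whose binary digits are the first `d` values of `f`, the first one being the most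
significant one -/
def nval (f : ℕ → Bool) : ℕ → ℕ
  | 0 => 0
  | d + 1 => 2 * nval f d + (if f d then 1 else 0)

lemma nval_lt (f : ℕ → Bool) : ∀ d, nval f d < 2 ^ d
  | 0 => by simp [nval]
  | d + 1 => by
    have h := nval_lt f d
    rw [nval, pow_succ]
    split_ifs <;> omega

lemma nval_div (f : ℕ → Bool) (d : ℕ) : ∀ e, nval f (d + e) / 2 ^ e = nval f d
  | 0 => by simp
  | e + 1 => by
    rw [← add_assoc, pow_succ', ← Nat.div_div_eq_div_mul, nval]
    have h : (2 * nval f (d + e) + (if f (d + e) then 1 else 0)) / 2 = nval f (d + e) := by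
      split_ifs <;> omega
    rw [h, nval_div f d e]

lemma nval_congr {f g : ℕ → Bool} : ∀ {d : ℕ}, (∀ k < d, f k = g k) → nval f d = nval g d
  | 0, _ => rfl
  | d + 1, h => by
    rw [nval, nval, h d (Nat.lt_succ_self d), nval_congr fun k hk => h k (by omega)]

/-- the digits of a number, the first one being the most significant one -/
def ndig (d N k : ℕ) : Bool := decide (N / 2 ^ (d - 1 - k) % 2 = 1)

lemma nval_ndig_aux (d N : ℕ) (hN : N < 2 ^ d) : ∀ j, j ≤ d → nval (ndig d N) j = N / 2 ^ (d - j)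
  | 0, _ => by rw [nval, Nat.sub_zero, Nat.div_eq_of_lt hN]
  | j + 1, hj => by
    have h1 := nval_ndig_aux d N hN j (by omega)
    have h2 : N / 2 ^ (d - j) = N / 2 ^ (d - 1 - j) / 2 := by
      rw [Nat.div_div_eq_div_mul, ← pow_succ]
      congr 2
      omega
    rw [nval, h1, h2, ndig, show d - (j + 1) = d - 1 - j by omega]
    by_cases h : N / 2 ^ (d - 1 - j) % 2 = 1
    · rw [if_pos (by simpa using h)]
      omega
    · rw [if_neg (by simpa using h)]
      omega

lemma nval_ndig {d N : ℕ} (hN : N < 2 ^ d) : nval (ndig d N) d = N := by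
  rw [nval_ndig_aux d N hN d le_rfl, Nat.sub_self, pow_zero, Nat.div_one]

section Poly

open Polynomial

/-- the `k`-th digit in the direction `i`, as a linear functional on polynomials -/
noncomputable def ldg (n : ℕ) (i : Fin 3) (k : ℕ) : (ZMod 2)[X] →ₗ[ZMod 2] ZMod 2 :=
  if i = 0 then lcoeff (ZMod 2) k
  else if i = 1 then lcoeff (ZMod 2) (n - 1 - k)
  else (lcoeff (ZMod 2) k).comp (taylor (1 : ZMod 2))

lemma poly_eq_zero {n : ℕ} {d : Fin 3 → ℕ} (hd : ∑ i, d i = n) {p : (ZMod 2)[X]}
    (hp : p.degree < n) (h : ∀ i, ∀ k < d i, ldg n i k p = 0) : p = 0 := by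
  have hs : d 0 + d 1 + d 2 = n := by rw [← hd, Fin.sum_univ_three]
  have h0 : (X : (ZMod 2)[X]) ^ d 0 ∣ p := by
    rw [X_pow_dvd_iff]
    intro k hk
    simpa [ldg] using h 0 k hk
  have h1 : ∀ j, n - d 1 ≤ j → p.coeff j = 0 := by
    intro j hj
    by_cases hjn : n ≤ j
    · exact coeff_eq_zero_of_degree_lt (hp.trans_le (by exact_mod_cast hjn))
    · have := h 1 (n - 1 - j) (by omega)
      rw [ldg, if_neg (show ¬(1 : Fin 3) = 0 by decide), if_pos rfl, lcoeff_apply,
        show n - 1 - (n - 1 - j) = j by omega] at this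
      exact this
  have h2 : (X - C (1 : ZMod 2)) ^ d 2 ∣ p := by
    rw [X_sub_C_pow_dvd_iff, X_pow_dvd_iff]
    intro k hk
    have := h 2 k hk
    rw [ldg, if_neg (show ¬(2 : Fin 3) = 0 by decide),
      if_neg (show ¬(2 : Fin 3) = 1 by decide)] at this
    simpa [taylor_apply] using this
  have hc : IsCoprime ((X : (ZMod 2)[X]) ^ d 0) ((X - C (1 : ZMod 2)) ^ d 2) := by
    apply IsCoprime.pow
    refine ⟨1, -1, ?_⟩
    rw [map_one]
    ring
  have h3 := hc.mul_dvd h0 h2
  have hm : ((X : (ZMod 2)[X]) ^ d 0 * (X - C (1 : ZMod 2)) ^ d 2).Monic :=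
    (monic_X_pow _).mul ((monic_X_sub_C _).pow _)
  have hdeg : p.degree < ((d 0 + d 2 : ℕ) : WithBot ℕ) := by
    rw [degree_lt_iff_coeff_zero]
    intro j hj
    exact h1 j (by omega)
  by_contra hne
  have h4 := degree_le_of_dvd h3 hne
  rw [degree_mul, degree_pow, degree_pow, degree_X, degree_X_sub_C] at h4
  have h5 : ((d 0 + d 2 : ℕ) : WithBot ℕ) = d 0 • (1 : WithBot ℕ) + d 2 • (1 : WithBot ℕ) := by
    simp
  rw [h5] at hdeg
  exact absurd (hdeg.trans_le h4) (lt_irrefl _)

/-- the digits of polynomials of degree less than `n` can be prescribed -/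
lemma exists_poly {n : ℕ} {d : Fin 3 → ℕ} (hd : ∑ i, d i = n) (t : Fin 3 → ℕ → ZMod 2) :
    ∃ p : (ZMod 2)[X], p.degree < n ∧ ∀ i, ∀ k < d i, ldg n i k p = t i k := by
  let T : (degreeLT (ZMod 2) n) →ₗ[ZMod 2] ((Σ i : Fin 3, Fin (d i)) → ZMod 2) :=
    LinearMap.pi fun x => (ldg n x.1 x.2).comp (degreeLT (ZMod 2) n).subtype
  have hT : ∀ p x, T p x = ldg n x.1 x.2 (p : (ZMod 2)[X]) := fun p x => rfl
  have hinj : Function.Injective T := by
    rw [injective_iff_map_eq_zero]
    intro p hp
    apply Subtype.ext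
    refine poly_eq_zero hd (mem_degreeLT.1 p.2) fun i k hk => ?_
    have := congrFun hp ⟨i, ⟨k, hk⟩⟩
    rwa [hT] at this
  have hfr : Module.finrank (ZMod 2) (degreeLT (ZMod 2) n) =
      Module.finrank (ZMod 2) ((Σ i : Fin 3, Fin (d i)) → ZMod 2) := by
    rw [(degreeLTEquiv (ZMod 2) n).finrank_eq, Module.finrank_fintype_fun_eq_card,
      Module.finrank_fintype_fun_eq_card, Fintype.card_fin, Fintype.card_sigma]
    simp only [Fintype.card_fin]
    exact hd.symm
  have : FiniteDimensional (ZMod 2) (degreeLT (ZMod 2) n) :=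
    (degreeLTEquiv (ZMod 2) n).symm.finiteDimensional
  have hsur : Function.Surjective T :=
    (LinearMap.injective_iff_surjective_of_finrank_eq_finrank hfr).1 hinj
  obtain ⟨p, hp⟩ := hsur fun x => t x.1 x.2
  refine ⟨p, mem_degreeLT.1 p.2, fun i k hk => ?_⟩
  have := congrFun hp ⟨i, ⟨k, hk⟩⟩
  rwa [hT] at this

/-- the polynomial with the coefficients `v` -/
noncomputable def vpol {n : ℕ} (v : Fin n → Bool) : (ZMod 2)[X] :=
  ∑ c : Fin n, monomial (c : ℕ) (if v c then (1 : ZMod 2) else 0)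

lemma vpol_of_degree {n : ℕ} {p : (ZMod 2)[X]} (hp : p.degree < n) :
    vpol (fun c : Fin n => decide (p.coeff c = 1)) = p := by
  have h01 : ∀ a : ZMod 2, (if decide (a = 1) = true then (1 : ZMod 2) else 0) = a := by decide
  unfold vpol
  simp only [h01]
  rw [Fin.sum_univ_eq_sum_range (fun c => monomial c (p.coeff c)) n]
  ext j
  rw [finsetSum_coeff]
  simp only [coeff_monomial]
  rw [Finset.sum_ite_eq']
  split_ifs with hj
  · rfl
  · rw [mem_range, not_lt] at hj
    exact (coeff_eq_zero_of_degree_lt (hp.trans_le (by exact_mod_cast hj))).symm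

/-- the digits of the net -/
noncomputable def pdg (n : ℕ) (v : Fin n → Bool) (i : Fin 3) (k : ℕ) : Bool :=
  decide (ldg n i k (vpol v) = 1)

end Poly

/-- the digital net in base `2` in dimension `3`: `2 ^ n` cells which meet every box of order `n` -/
theorem exists_net (n : ℕ) : ∃ X : (Fin n → Bool) → Fin 3 → ℕ, (∀ v i, X v i < 2 ^ n) ∧
    ∀ b : It n, ∃ v, Cv n b.1 (X v) := by
  refine ⟨fun v i => nval (pdg n v i) n, fun v i => nval_lt _ _, fun b => ?_⟩
  obtain ⟨p, hp, hpd⟩ := exists_poly b.2.1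
    (fun i k => if ndig (b.1.1 i) (b.1.2 i) k then (1 : ZMod 2) else 0)
  refine ⟨fun c => decide (p.coeff c = 1), fun i => ?_⟩
  have hle := b.2.le i
  have h1 := nval_div (pdg n (fun c : Fin n => decide (p.coeff c = 1)) i) (b.1.1 i) (n - b.1.1 i)
  rw [Nat.add_sub_cancel' hle] at h1
  rw [h1]
  rw [nval_congr (g := ndig (b.1.1 i) (b.1.2 i)) (fun k hk => ?_), nval_ndig (b.2.2 i)]
  rw [pdg, vpol_of_degree hp, hpd i k hk]
  cases ndig (b.1.1 i) (b.1.2 i) k <;> simp

end Pool.Agent.helper78.NT
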